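import Pool.Agent.U481.EV.Stm

set_option autoImplicit false

open MeasureTheory Set Metric
open scoped ENNReal NNReal ContDiff

namespace Pool.Agent.U981.EV.HED

open H772R2.NS Pool.Agent.U481.EV

theorem tailpt (a y : E3) (p : ℕ) (δ : ℝ) (hδ : 0 < δ) (h : δ ≤ ‖a - y‖) :
    (‖a - y‖ₑ ^ (p + 1))⁻¹ ≤ ∑' k : ℕ, ENNReal.ofReal (((2 ^ k * δ) ^ (p + 1))⁻¹) *
      (ball a (2 ^ (k + 1) * δ)).indicator (fun _ => (1 : ℝ≥0∞)) y := by
  obtain ⟨k, h1, h2⟩ := exists_nat_pow_near (x := ‖a - y‖ / δ) (y := 2)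
    ((one_le_div hδ).mpr h) (by norm_num)
  refine le_trans ?_ (ENNReal.le_tsum k)
  have h3 : 2 ^ k * δ ≤ ‖a - y‖ := (le_div_iff₀ hδ).mp h1
  have h4 : ‖a - y‖ < 2 ^ (k + 1) * δ := (div_lt_iff₀ hδ).mp h2
  have hm : y ∈ ball a (2 ^ (k + 1) * δ) := by
    rw [mem_ball, dist_comm, dist_eq_norm]; exact h4
  rw [indicator_of_mem hm, mul_one, ← ofReal_norm, ← ENNReal.ofReal_pow (norm_nonneg _),
    ← ENNReal.ofReal_inv_of_pos (by have := hδ.trans_le h; positivity)]
  apply ENNReal.ofReal_le_ofReal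
  gcongr

theorem tail (μ : Measure E3) (a : E3) (B : ℝ≥0∞) (p : ℕ)
    (hμ : ∀ r : ℝ, 0 < r → μ (ball a r) ≤ B * ENNReal.ofReal (r ^ p)) (δ : ℝ) (hδ : 0 < δ) :
    ∫⁻ y in {y | δ ≤ ‖a - y‖}, (‖a - y‖ₑ ^ (p + 1))⁻¹ ∂μ ≤
      B * ENNReal.ofReal (2 ^ (p + 1) / δ) := by
  have hms : MeasurableSet {y : E3 | δ ≤ ‖a - y‖} :=
    measurableSet_le measurable_const (by fun_prop)
  calc ∫⁻ y in {y | δ ≤ ‖a - y‖}, (‖a - y‖ₑ ^ (p + 1))⁻¹ ∂μ
      ≤ ∫⁻ y in {y | δ ≤ ‖a - y‖}, ∑' k : ℕ, ENNReal.ofReal (((2 ^ k * δ) ^ (p + 1))⁻¹) *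
      (ball a (2 ^ (k + 1) * δ)).indicator (fun _ => (1 : ℝ≥0∞)) y ∂μ := by
        refine setLIntegral_mono' hms fun y hy => tailpt a y p δ hδ hy
    _ ≤ ∫⁻ y, ∑' k : ℕ, ENNReal.ofReal (((2 ^ k * δ) ^ (p + 1))⁻¹) *
      (ball a (2 ^ (k + 1) * δ)).indicator (fun _ => (1 : ℝ≥0∞)) y ∂μ :=
        setLIntegral_le_lintegral _ _
    _ = ∑' k : ℕ, ENNReal.ofReal (((2 ^ k * δ) ^ (p + 1))⁻¹) * μ (ball a (2 ^ (k + 1) * δ)) := by
        rw [lintegral_tsum]
        · congr 1
          funext k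
          rw [lintegral_const_mul _ (measurable_const.indicator measurableSet_ball),
            lintegral_indicator_const measurableSet_ball, one_mul]
        · intro k
          exact ((measurable_const.indicator measurableSet_ball).const_mul _).aemeasurable
    _ ≤ ∑' k : ℕ, B * ENNReal.ofReal (2 ^ p / δ * (1 / 2) ^ k) := by
        refine ENNReal.tsum_le_tsum fun k => ?_
        refine (mul_le_mul_right (hμ _ (by positivity)) _).trans (le_of_eq ?_)
        rw [mul_left_comm, ← ENNReal.ofReal_mul (by positivity)]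
        congr 2
        rw [mul_pow, mul_pow, pow_succ (2 : ℝ) k, mul_pow, one_div, inv_pow, pow_succ (2 ^ k : ℝ) p,
          pow_succ δ p]
        field_simp
    _ = B * ENNReal.ofReal (2 ^ (p + 1) / δ) := by
        rw [ENNReal.tsum_mul_left, ← ENNReal.ofReal_tsum_of_nonneg (fun k => by positivity)
          (summable_geometric_two.mul_left _), tsum_mul_left, tsum_geometric_two]
        congr 2
        ring

theorem nearpt (a y : E3) (δ : ℝ) (h0 : y ≠ a) (h : ‖a - y‖ < δ) :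
    (‖a - y‖ₑ ^ 2)⁻¹ ≤ ∑' k : ℕ, ENNReal.ofReal (4 * 4 ^ k / δ ^ 2) *
      (ball a (2 * δ / 2 ^ k)).indicator (fun _ => (1 : ℝ≥0∞)) y := by
  have hpos : 0 < ‖a - y‖ := norm_pos_iff.mpr (sub_ne_zero.mpr h0.symm)
  have hδ : 0 < δ := hpos.trans h
  obtain ⟨i, h1, h2⟩ := exists_nat_pow_near (x := δ / ‖a - y‖) (y := 2)
    ((one_le_div hpos).mpr h.le) (by norm_num)
  refine le_trans ?_ (ENNReal.le_tsum i)
  have h3 : 2 ^ i * ‖a - y‖ ≤ δ := (le_div_iff₀ hpos).mp h1
  have h4 : δ < 2 ^ (i + 1) * ‖a - y‖ := (div_lt_iff₀ hpos).mp h2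
  have hp : (0 : ℝ) < 2 ^ i := by positivity
  have hm : y ∈ ball a (2 * δ / 2 ^ i) := by
    rw [mem_ball, dist_comm, dist_eq_norm, lt_div_iff₀ hp]
    nlinarith
  rw [indicator_of_mem hm, mul_one]
  have e : ‖a - y‖ₑ ^ 2 = ENNReal.ofReal (‖a - y‖ ^ 2) := by
    rw [← ofReal_norm, ENNReal.ofReal_pow (norm_nonneg _)]
  rw [e, ← ENNReal.ofReal_inv_of_pos (by positivity)]
  apply ENNReal.ofReal_le_ofReal
  rw [inv_eq_one_div, div_le_div_iff₀ (by positivity) (by positivity)]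
  have h5 : δ ^ 2 ≤ (2 ^ (i + 1) * ‖a - y‖) ^ 2 := by
    have := h4.le
    gcongr
  have h6 : (2 ^ (i + 1) * ‖a - y‖) ^ 2 = 4 * 4 ^ i * ‖a - y‖ ^ 2 := by
    have h7 : (4 : ℝ) ^ i = (2 ^ i) ^ 2 := by
      rw [← pow_mul, mul_comm i 2, pow_mul]
      norm_num
    rw [h7]
    ring
  rw [one_mul, ← h6]
  exact h5

/-- volume of the unit ball -/
noncomputable def cc : ℝ≥0 := (volume (ball (0 : E3) 1)).toNNReal

theorem cc_pos : 0 < cc := by
  unfold cc
  exact ENNReal.toNNReal_pos (measure_ball_pos _ _ one_pos).ne' measure_ball_lt_top.ne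

theorem vol (b : E3) (r : ℝ) (hr : 0 < r) :
    volume (ball b r) = cc * ENNReal.ofReal (r ^ 3) := by
  rw [Measure.addHaar_ball volume b hr.le]
  have h1 : Module.finrank ℝ E3 = 3 := by simp
  rw [h1, mul_comm]
  congr 1
  unfold cc
  rw [ENNReal.coe_toNNReal measure_ball_lt_top.ne]

theorem near (a : E3) (δ : ℝ) (hδ : 0 < δ) :
    ∫⁻ y in {y | ‖a - y‖ < δ}, (‖a - y‖ₑ ^ 2)⁻¹ ≤ cc * ENNReal.ofReal (64 * δ) := by
  have hms : MeasurableSet {y : E3 | ‖a - y‖ < δ} :=
    measurableSet_lt (by fun_prop) measurable_const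
  calc ∫⁻ y in {y | ‖a - y‖ < δ}, (‖a - y‖ₑ ^ 2)⁻¹
      ≤ ∫⁻ y in {y | ‖a - y‖ < δ}, ∑' k : ℕ, ENNReal.ofReal (4 * 4 ^ k / δ ^ 2) *
      (ball a (2 * δ / 2 ^ k)).indicator (fun _ => (1 : ℝ≥0∞)) y := by
        refine setLIntegral_mono_ae' hms ?_
        have : ∀ᵐ y : E3, y ≠ a := by
          rw [ae_iff]
          simp
        filter_upwards [this] with y hy hy2 using nearpt a y δ hy hy2
    _ ≤ ∫⁻ y, ∑' k : ℕ, ENNReal.ofReal (4 * 4 ^ k / δ ^ 2) *
      (ball a (2 * δ / 2 ^ k)).indicator (fun _ => (1 : ℝ≥0∞)) y :=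
        setLIntegral_le_lintegral _ _
    _ = ∑' k : ℕ, ENNReal.ofReal (4 * 4 ^ k / δ ^ 2) * volume (ball a (2 * δ / 2 ^ k)) := by
        rw [lintegral_tsum]
        · congr 1
          funext k
          rw [lintegral_const_mul _ (measurable_const.indicator measurableSet_ball),
            lintegral_indicator_const measurableSet_ball, one_mul]
        · intro k
          exact ((measurable_const.indicator measurableSet_ball).const_mul _).aemeasurable
    _ = ∑' k : ℕ, cc * ENNReal.ofReal (32 * δ * (1 / 2) ^ k) := by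
        congr 1
        funext k
        rw [vol _ _ (by positivity), mul_left_comm, ← ENNReal.ofReal_mul (by positivity)]
        congr 2
        have h7 : (4 : ℝ) ^ k = (2 ^ k) ^ 2 := by
          rw [← pow_mul, mul_comm k 2, pow_mul]
          norm_num
        rw [h7, one_div, inv_pow]
        field_simp
        ring
    _ = cc * ENNReal.ofReal (64 * δ) := by
        rw [ENNReal.tsum_mul_left, ← ENNReal.ofReal_tsum_of_nonneg (fun k => by positivity)
          (summable_geometric_two.mul_left _), tsum_mul_left, tsum_geometric_two]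
        congr 2
        ring

theorem tailvol (a : E3) (δ : ℝ) (hδ : 0 < δ) :
    ∫⁻ y in {y | δ ≤ ‖a - y‖}, (‖a - y‖ₑ ^ 4)⁻¹ ≤ cc * ENNReal.ofReal (16 / δ) := by
  have := tail volume a cc 3 (fun r hr => (vol a r hr).le) δ hδ
  norm_num at this ⊢
  exact this

theorem mN (y : E3) (R : ℝ) : MeasurableSet {a : E3 | ‖y - a‖ < R} :=
  measurableSet_lt (by fun_prop) measurable_const

theorem mT (y : E3) (R : ℝ) : MeasurableSet {a : E3 | R ≤ ‖y - a‖} :=
  measurableSet_le measurable_const (by fun_prop)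

theorem inner (W : E3 → ℝ≥0∞) (y : E3) (D V : ℝ) (hD : 0 < D) (hV : 0 < V)
    (h1 : ∀ a, W a ≤ ENNReal.ofReal (V ^ 3) * (‖y - a‖ₑ ^ 2)⁻¹)
    (h2 : ∀ a, a ≠ y → W a ≤ ENNReal.ofReal (V * D ^ 2) * (‖y - a‖ₑ ^ 4)⁻¹) :
    ∫⁻ a, W a ≤ cc * ENNReal.ofReal (80 * D * V ^ 2) := by
  have hR : 0 < D / V := by positivity
  have hN := mN y (D / V)
  have hT := mT y (D / V)
  calc ∫⁻ a, W a ≤ ∫⁻ a, ({a : E3 | ‖y - a‖ < D / V}.indicator
          (fun a => ENNReal.ofReal (V ^ 3) * (‖y - a‖ₑ ^ 2)⁻¹) a +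
        {a : E3 | D / V ≤ ‖y - a‖}.indicator
          (fun a => ENNReal.ofReal (V * D ^ 2) * (‖y - a‖ₑ ^ 4)⁻¹) a) := by
        refine lintegral_mono fun a => ?_
        by_cases h : ‖y - a‖ < D / V
        · refine (h1 a).trans ?_
          rw [indicator_of_mem (show a ∈ {a : E3 | ‖y - a‖ < D / V} from h)]
          exact le_self_add
        · push Not at h
          have hne : a ≠ y := by
            rintro rfl
            rw [sub_self, norm_zero] at h
            linarith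
          refine (h2 a hne).trans ?_
          rw [indicator_of_mem (show a ∈ {a : E3 | D / V ≤ ‖y - a‖} from h)]
          exact le_add_self
    _ = (∫⁻ a in {a : E3 | ‖y - a‖ < D / V}, ENNReal.ofReal (V ^ 3) * (‖y - a‖ₑ ^ 2)⁻¹) +
        ∫⁻ a in {a : E3 | D / V ≤ ‖y - a‖},
          ENNReal.ofReal (V * D ^ 2) * (‖y - a‖ₑ ^ 4)⁻¹ := by
        rw [lintegral_add_left, lintegral_indicator hN, lintegral_indicator hT]
        exact (by fun_prop : Measurable fun a : E3 => ENNReal.ofReal (V ^ 3) *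
          (‖y - a‖ₑ ^ 2)⁻¹).indicator hN
    _ ≤ ENNReal.ofReal (V ^ 3) * (cc * ENNReal.ofReal (64 * (D / V))) +
        ENNReal.ofReal (V * D ^ 2) * (cc * ENNReal.ofReal (16 / (D / V))) := by
        rw [lintegral_const_mul _ (by fun_prop), lintegral_const_mul _ (by fun_prop)]
        gcongr
        · exact near y _ hR
        · exact tailvol y _ hR
    _ = cc * ENNReal.ofReal (80 * D * V ^ 2) := by
        rw [mul_left_comm, mul_left_comm (ENNReal.ofReal (V * D ^ 2)),
          ← ENNReal.ofReal_mul (by positivity), ← ENNReal.ofReal_mul (by positivity), ← mul_add,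
          ← ENNReal.ofReal_add (by positivity) (by positivity)]
        congr 2
        field_simp
        ring

theorem mid (f : E3 → ℝ≥0∞) (hf : Measurable f) (a : E3) (A ρ δ : ℝ) (hA : 0 < A) (hρ : 0 < ρ)
    (hδ : 0 < δ) (hg : ∀ r : ℝ, 0 < r → r ≤ ρ → ∫⁻ y in ball a r, f y ≤ ENNReal.ofReal (A * r)) :
    ∫⁻ y in {y | δ ≤ ‖a - y‖} ∩ ball a ρ, f y * (‖a - y‖ₑ ^ 2)⁻¹ ≤
      ENNReal.ofReal (4 * A / δ) := by
  have h1 := tail ((volume.withDensity f).restrict (ball a ρ)) a (ENNReal.ofReal A) 1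
    (fun r hr => by
      rw [Measure.restrict_apply measurableSet_ball, pow_one, ← ENNReal.ofReal_mul hA.le]
      rcases le_total r ρ with h | h
      · refine (measure_mono inter_subset_left).trans ?_
        rw [withDensity_apply _ measurableSet_ball]
        exact hg r hr h
      · refine (measure_mono inter_subset_right).trans ?_
        rw [withDensity_apply _ measurableSet_ball]
        refine (hg ρ hρ le_rfl).trans (ENNReal.ofReal_le_ofReal ?_)
        gcongr) δ hδ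
  rw [Measure.restrict_restrict (mT a δ), setLIntegral_withDensity_eq_setLIntegral_mul _ hf
    (by fun_prop) ((mT a δ).inter measurableSet_ball), ← ENNReal.ofReal_mul hA.le] at h1
  norm_num at h1
  refine le_trans (le_of_eq ?_) (h1.trans (le_of_eq ?_))
  · rfl
  · congr 1
    ring

theorem far (f : E3 → ℝ≥0∞) (hf : Measurable f) (a : E3) (ρ : ℝ) (hρ : 0 < ρ) :
    (∫⁻ y in {y | ρ ≤ ‖a - y‖}, f y * (‖a - y‖ₑ ^ 2)⁻¹) ^ 2 ≤
      (∫⁻ y, f y ^ 2) * (cc * ENNReal.ofReal (16 / ρ)) := by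
  have h1 := ENNReal.lintegral_mul_le_Lp_mul_Lq (volume.restrict {y : E3 | ρ ≤ ‖a - y‖})
    Real.HolderConjugate.two_two (f := f) (g := fun y => (‖a - y‖ₑ ^ 2)⁻¹) hf.aemeasurable
    (by fun_prop)
  have h2 : ∀ x : ℝ≥0∞, (x ^ (1 / 2 : ℝ)) ^ 2 = x := by
    intro x
    rw [← ENNReal.rpow_natCast, ← ENNReal.rpow_mul]
    norm_num
  have h3 := pow_le_pow_left' h1 2
  rw [mul_pow, h2, h2] at h3
  simp only [ENNReal.rpow_ofNat] at h3
  refine h3.trans (mul_le_mul' (setLIntegral_le_lintegral _ _) ?_)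
  refine le_trans (le_of_eq ?_) (tailvol a ρ hρ)
  congr 1
  funext y
  rw [← ENNReal.inv_pow, ← pow_mul, ENNReal.inv_pow]

theorem point (f : E3 → ℝ≥0∞) (hf : Measurable f) (a : E3) (A ρ s : ℝ) (hA : 0 < A) (hρ : 0 < ρ)
    (hs : 0 < s) (hg : ∀ r : ℝ, 0 < r → r ≤ ρ → ∫⁻ y in ball a r, f y ≤ ENNReal.ofReal (A * r))
    (hu : ENNReal.ofReal s ≤ ∫⁻ y, f y * (‖a - y‖ₑ ^ 2)⁻¹) :
    ENNReal.ofReal s ≤ 4 * (∫⁻ y in {y | ρ ≤ ‖a - y‖}, f y * (‖a - y‖ₑ ^ 2)⁻¹) ∨
    ENNReal.ofReal s ≤ 4 * (∫⁻ y in {y | ‖a - y‖ < 16 * A / s} ∩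
      {y | ENNReal.ofReal (s ^ 2 / (8192 * cc * A)) < f y}, f y * (‖a - y‖ₑ ^ 2)⁻¹) := by
  have hcc : (0 : ℝ) < cc := by exact_mod_cast cc_pos
  set δ := 16 * A / s with hδd
  have hδ : 0 < δ := by positivity
  set θ := s ^ 2 / (8192 * cc * A) with hθd
  have hθ : 0 < θ := by positivity
  set F := ∫⁻ y in {y | ρ ≤ ‖a - y‖}, f y * (‖a - y‖ₑ ^ 2)⁻¹ with hF
  set N := ∫⁻ y in {y | ‖a - y‖ < δ} ∩ {y | ENNReal.ofReal θ < f y}, f y * (‖a - y‖ₑ ^ 2)⁻¹
    with hN
  have hmf : Measurable fun y => f y * (‖a - y‖ₑ ^ 2)⁻¹ := by fun_prop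
  have hms : MeasurableSet ({y | ‖a - y‖ < δ} ∩ {y | ENNReal.ofReal θ < f y}) :=
    (mN a δ).inter (measurableSet_lt measurable_const hf)
  have key : ∫⁻ y, f y * (‖a - y‖ₑ ^ 2)⁻¹ ≤
      N + ENNReal.ofReal (s / 8) + ENNReal.ofReal (s / 4) + F := by
    calc ∫⁻ y, f y * (‖a - y‖ₑ ^ 2)⁻¹
        ≤ ∫⁻ y, (({y | ‖a - y‖ < δ} ∩ {y | ENNReal.ofReal θ < f y}).indicator
            (fun y => f y * (‖a - y‖ₑ ^ 2)⁻¹) y +
          {y | ‖a - y‖ < δ}.indicator (fun y => ENNReal.ofReal θ * (‖a - y‖ₑ ^ 2)⁻¹) y +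
          ({y | δ ≤ ‖a - y‖} ∩ ball a ρ).indicator (fun y => f y * (‖a - y‖ₑ ^ 2)⁻¹) y +
          {y | ρ ≤ ‖a - y‖}.indicator (fun y => f y * (‖a - y‖ₑ ^ 2)⁻¹) y) := by
          refine lintegral_mono fun y => ?_
          by_cases h1 : ρ ≤ ‖a - y‖
          · rw [indicator_of_mem (show y ∈ {y | ρ ≤ ‖a - y‖} from h1)]
            exact le_add_self
          · by_cases h2 : δ ≤ ‖a - y‖
            · have h3 : y ∈ {y | δ ≤ ‖a - y‖} ∩ ball a ρ := by
                refine ⟨h2, ?_⟩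
                rw [mem_ball, dist_comm, dist_eq_norm]
                exact lt_of_not_ge h1
              rw [indicator_of_mem h3]
              exact le_add_self.trans le_self_add
            · have h2' : ‖a - y‖ < δ := lt_of_not_ge h2
              by_cases h4 : ENNReal.ofReal θ < f y
              · have h3 : y ∈ {y | ‖a - y‖ < δ} ∩ {y | ENNReal.ofReal θ < f y} := ⟨h2', h4⟩
                rw [indicator_of_mem h3]
                exact le_self_add.trans (le_self_add.trans le_self_add)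
              · rw [indicator_of_mem (show y ∈ {y | ‖a - y‖ < δ} from h2')]
                have h5 : f y * (‖a - y‖ₑ ^ 2)⁻¹ ≤ ENNReal.ofReal θ * (‖a - y‖ₑ ^ 2)⁻¹ := by
                  gcongr
                  exact le_of_not_gt h4
                exact h5.trans (le_add_self.trans (le_self_add.trans le_self_add))
      _ = N + (∫⁻ y in {y | ‖a - y‖ < δ}, ENNReal.ofReal θ * (‖a - y‖ₑ ^ 2)⁻¹) +
          (∫⁻ y in {y | δ ≤ ‖a - y‖} ∩ ball a ρ, f y * (‖a - y‖ₑ ^ 2)⁻¹) + F := by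
          have m1 := hmf.indicator hms
          have m2 : Measurable ({y | ‖a - y‖ < δ}.indicator
            (fun y => ENNReal.ofReal θ * (‖a - y‖ₑ ^ 2)⁻¹)) :=
            (by fun_prop : Measurable fun y : E3 => ENNReal.ofReal θ *
              (‖a - y‖ₑ ^ 2)⁻¹).indicator (mN a δ)
          have m3 := hmf.indicator ((mT a δ).inter (measurableSet_ball (x := a) (ε := ρ)))
          rw [lintegral_add_right _ (hmf.indicator (mT a ρ)), lintegral_add_right _ m3,
            lintegral_add_right _ m2, lintegral_indicator hms, lintegral_indicator (mN a δ),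
            lintegral_indicator ((mT a δ).inter measurableSet_ball), lintegral_indicator (mT a ρ)]
      _ ≤ N + ENNReal.ofReal (s / 8) + ENNReal.ofReal (s / 4) + F := by
          gcongr
          · rw [lintegral_const_mul _ (by fun_prop)]
            refine (mul_le_mul_right (near a δ hδ) _).trans (le_of_eq ?_)
            rw [← ENNReal.ofReal_coe_nnreal, ← ENNReal.ofReal_mul (by positivity),
              ← ENNReal.ofReal_mul (by positivity)]
            congr 1
            rw [hθd, hδd]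
            field_simp
            ring
          · refine (mid f hf a A ρ δ hA hρ hδ hg).trans (le_of_eq ?_)
            congr 1
            rw [hδd]
            field_simp
            ring
  by_contra hcon
  push Not at hcon
  obtain ⟨c1, c2⟩ := hcon
  have e1 : ∀ x : ℝ≥0∞, 4 * x < ENNReal.ofReal s → x < ENNReal.ofReal (s / 4) := by
    intro x hx
    have hx2 : x ≠ ⊤ := by
      rintro rfl
      simp at hx
    lift x to ℝ≥0 using hx2
    rw [show (4 : ℝ≥0∞) * (x : ℝ≥0∞) = ENNReal.ofReal (4 * x) by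
      rw [ENNReal.ofReal_mul (by norm_num)]
      simp, ENNReal.ofReal_lt_ofReal_iff hs] at hx
    rw [← ENNReal.ofReal_coe_nnreal, ENNReal.ofReal_lt_ofReal_iff (by positivity)]
    linarith
  have k1 := e1 _ c1
  have k2 := e1 _ c2
  have k3 := hu.trans key
  have k4 : N + ENNReal.ofReal (s / 8) + ENNReal.ofReal (s / 4) + F ≤
      ENNReal.ofReal (s / 4) + ENNReal.ofReal (s / 8) + ENNReal.ofReal (s / 4) +
        ENNReal.ofReal (s / 4) := by
    gcongr
  have k5 := k3.trans k4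
  rw [← ENNReal.ofReal_add (by positivity) (by positivity),
    ← ENNReal.ofReal_add (by positivity) (by positivity),
    ← ENNReal.ofReal_add (by positivity) (by positivity),
    ENNReal.ofReal_le_ofReal_iff (by positivity)] at k5
  linarith

/-- the set of pairs -/
def PS (f v : E3 → ℝ≥0∞) (A : ℝ) : Set (E3 × E3) :=
  {p | v p.1 * ‖p.1 - p.2‖ₑ < ENNReal.ofReal (16 * A)} ∩
    {p | v p.1 ^ 2 < ENNReal.ofReal (8192 * cc * A) * f p.2}

/-- the kernel -/
noncomputable def WW (f v : E3 → ℝ≥0∞) (A : ℝ) (p : E3 × E3) : ℝ≥0∞ :=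
  (PS f v A).indicator (fun p => v p.1 ^ 3 * (‖p.1 - p.2‖ₑ ^ 2)⁻¹) p

theorem WW_meas (f v : E3 → ℝ≥0∞) (hf : Measurable f) (hv : Measurable v) (A : ℝ) :
    Measurable (WW f v A) := by
  unfold WW
  refine Measurable.indicator (by fun_prop) ?_
  exact (measurableSet_lt (by fun_prop) measurable_const).inter
    (measurableSet_lt (by fun_prop) (by fun_prop))

theorem swapb (f v : E3 → ℝ≥0∞) (hf : Measurable f) (hv : Measurable v) (A : ℝ) (hA : 0 < A) :
    ∫⁻ a, ∫⁻ y, f y * WW f v A (a, y) ≤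
      cc * ENNReal.ofReal (80 * (16 * A) * (8192 * cc * A)) * ∫⁻ y, f y ^ 2 := by
  have hcc : (0 : ℝ) < cc := by exact_mod_cast cc_pos
  have hW := WW_meas f v hf hv A
  rw [lintegral_lintegral_swap (by
    exact ((hf.comp measurable_snd).mul hW).aemeasurable),
    ← lintegral_const_mul _ (by fun_prop)]
  refine lintegral_mono fun y => ?_
  have hcm : Measurable fun a => WW f v A (a, y) := hW.comp (by fun_prop)
  rw [lintegral_const_mul _ hcm]
  rcases eq_or_ne (f y) 0 with h0 | h0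
  · simp [h0]
  rcases eq_or_ne (f y) ⊤ with ht | ht
  · have h1 : (cc : ℝ≥0∞) * ENNReal.ofReal (80 * (16 * A) * (8192 * cc * A)) ≠ 0 := by
      refine mul_ne_zero (by exact_mod_cast cc_pos.ne') ?_
      exact (ENNReal.ofReal_pos.mpr (by positivity)).ne'
    have h2 : (cc : ℝ≥0∞) * ENNReal.ofReal (80 * (16 * A) * (8192 * cc * A)) * f y ^ 2 = ⊤ := by
      rw [ht, ENNReal.top_pow (by norm_num), ENNReal.mul_top h1]
    simp only [h2]
    exact le_top
  obtain ⟨t, ht0, hft⟩ : ∃ t : ℝ, 0 < t ∧ f y = ENNReal.ofReal t :=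
    ⟨(f y).toReal, ENNReal.toReal_pos h0 ht, (ENNReal.ofReal_toReal ht).symm⟩
  set V := √(8192 * cc * A * t) with hV
  have hV2 : V ^ 2 = 8192 * cc * A * t := Real.sq_sqrt (by positivity)
  have hV0 : 0 < V := Real.sqrt_pos.mpr (by positivity)
  have hmem : ∀ a, (a, y) ∈ PS f v A → v a ≤ ENNReal.ofReal V ∧
      v a * ‖y - a‖ₑ ≤ ENNReal.ofReal (16 * A) := by
    intro a ha
    constructor
    · by_contra hc
      push Not at hc
      have h1 : v a ^ 2 < ENNReal.ofReal (8192 * cc * A) * f y := ha.2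
      rw [hft, ← ENNReal.ofReal_mul (by positivity), ← hV2, ENNReal.ofReal_pow hV0.le] at h1
      exact absurd (pow_le_pow_left' hc.le 2) (not_le.mpr h1)
    · have h1 : v a * ‖a - y‖ₑ < ENNReal.ofReal (16 * A) := ha.1
      rw [enorm_sub_rev]
      exact h1.le
  have hI := inner (fun a => WW f v A (a, y)) y (16 * A) V (by positivity) hV0
    (fun a => by
      unfold WW
      by_cases ha : (a, y) ∈ PS f v A
      · rw [indicator_of_mem ha, ENNReal.ofReal_pow hV0.le]
        show v a ^ 3 * (‖a - y‖ₑ ^ 2)⁻¹ ≤ _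
        rw [enorm_sub_rev]
        gcongr
        exact (hmem a ha).1
      · rw [indicator_of_notMem ha]
        exact zero_le)
    (fun a hay => by
      unfold WW
      by_cases ha : (a, y) ∈ PS f v A
      · rw [indicator_of_mem ha, ENNReal.ofReal_mul hV0.le, ENNReal.ofReal_pow (by positivity)]
        show v a ^ 3 * (‖a - y‖ₑ ^ 2)⁻¹ ≤ _
        rw [enorm_sub_rev]
        have he : ‖y - a‖ₑ ^ 2 ≠ 0 := by
          simp [sub_eq_zero, hay.symm]
        have he2 : ‖y - a‖ₑ ^ 2 ≠ ⊤ := by simp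
        have h4 : (‖y - a‖ₑ ^ 4)⁻¹ = (‖y - a‖ₑ ^ 2)⁻¹ * (‖y - a‖ₑ ^ 2)⁻¹ := by
          rw [← ENNReal.mul_inv (Or.inl he) (Or.inl he2), ← pow_add]
        calc v a ^ 3 * (‖y - a‖ₑ ^ 2)⁻¹ = v a * (v a ^ 2 * ((‖y - a‖ₑ ^ 2) *
              (‖y - a‖ₑ ^ 2)⁻¹)) * (‖y - a‖ₑ ^ 2)⁻¹ := by
              rw [ENNReal.mul_inv_cancel he he2]
              ring
          _ = v a * (v a * ‖y - a‖ₑ) ^ 2 * (‖y - a‖ₑ ^ 4)⁻¹ := by
              rw [h4]
              ring
          _ ≤ ENNReal.ofReal V * ENNReal.ofReal (16 * A) ^ 2 * (‖y - a‖ₑ ^ 4)⁻¹ := by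
              gcongr
              · exact (hmem a ha).1
              · exact (hmem a ha).2
      · rw [indicator_of_notMem ha]
        exact zero_le)
  refine (mul_le_mul_right hI _).trans (le_of_eq ?_)
  rw [hV2, hft, ← ENNReal.ofReal_pow ht0.le, mul_left_comm, mul_assoc (cc : ℝ≥0∞),
    ← ENNReal.ofReal_mul ht0.le, ← ENNReal.ofReal_mul (by positivity)]
  congr 2
  ring

theorem core (f v : E3 → ℝ≥0∞) (hf : Measurable f) (hv : Measurable v) (hn : ∀ a, v a ≠ ⊤)
    (h : ∀ᵐ a, v a ≤ ∫⁻ y, f y * (‖a - y‖ₑ ^ 2)⁻¹) (A ρ : ℝ) (hA : 0 < A) (hρ : 0 < ρ)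
    (hg : ∀ (a : E3) (r : ℝ), 0 < r → r ≤ ρ → ∫⁻ y in ball a r, f y ≤ ENNReal.ofReal (A * r)) :
    ∫⁻ a, v a ^ 4 ≤ 16 * ((∫⁻ y, f y ^ 2) * (cc * ENNReal.ofReal (16 / ρ))) * (∫⁻ a, v a ^ 2) +
      4 * (cc * ENNReal.ofReal (80 * (16 * A) * (8192 * cc * A)) * ∫⁻ y, f y ^ 2) := by
  have hcc : (0 : ℝ) < cc := by exact_mod_cast cc_pos
  have hW := WW_meas f v hf hv A
  calc ∫⁻ a, v a ^ 4 ≤ ∫⁻ a, (16 * ((∫⁻ y, f y ^ 2) * (cc * ENNReal.ofReal (16 / ρ))) * v a ^ 2 +
        4 * ∫⁻ y, f y * WW f v A (a, y)) := by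
        refine lintegral_mono_ae ?_
        filter_upwards [h] with a ha
        rcases eq_or_ne (v a) 0 with h0 | h0
        · simp [h0]
        obtain ⟨s, hs, hvs⟩ : ∃ s : ℝ, 0 < s ∧ v a = ENNReal.ofReal s :=
          ⟨(v a).toReal, ENNReal.toReal_pos h0 (hn a), (ENNReal.ofReal_toReal (hn a)).symm⟩
        rw [hvs] at ha
        rcases point f hf a A ρ s hA hρ hs (hg a) ha with h1 | h1
        · refine le_trans ?_ le_self_add
          have h2 := far f hf a ρ hρ
          rw [← hvs] at h1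
          calc v a ^ 4 = v a ^ 2 * v a ^ 2 := by ring
            _ ≤ (4 * (∫⁻ y in {y | ρ ≤ ‖a - y‖}, f y * (‖a - y‖ₑ ^ 2)⁻¹)) ^ 2 * v a ^ 2 := by
                gcongr
            _ = 16 * (∫⁻ y in {y | ρ ≤ ‖a - y‖}, f y * (‖a - y‖ₑ ^ 2)⁻¹) ^ 2 * v a ^ 2 := by
                ring
            _ ≤ _ := by gcongr
        · refine le_trans ?_ le_add_self
          rw [← hvs] at h1
          calc v a ^ 4 = v a ^ 3 * v a := by ring
            _ ≤ v a ^ 3 * (4 * (∫⁻ y in {y | ‖a - y‖ < 16 * A / s} ∩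
                {y | ENNReal.ofReal (s ^ 2 / (8192 * cc * A)) < f y},
                  f y * (‖a - y‖ₑ ^ 2)⁻¹)) := by gcongr
            _ = 4 * (∫⁻ y in {y | ‖a - y‖ < 16 * A / s} ∩
                {y | ENNReal.ofReal (s ^ 2 / (8192 * cc * A)) < f y},
                  v a ^ 3 * (f y * (‖a - y‖ₑ ^ 2)⁻¹)) := by
                rw [lintegral_const_mul _ (by fun_prop)]
                ring
            _ ≤ _ := by
                refine mul_le_mul' le_rfl ?_
                have hms : MeasurableSet ({y | ‖a - y‖ < 16 * A / s} ∩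
                  {y | ENNReal.ofReal (s ^ 2 / (8192 * cc * A)) < f y}) :=
                  (mN a _).inter (measurableSet_lt measurable_const hf)
                rw [← lintegral_indicator hms]
                refine lintegral_mono fun y => ?_
                by_cases hy : y ∈ {y | ‖a - y‖ < 16 * A / s} ∩
                  {y | ENNReal.ofReal (s ^ 2 / (8192 * cc * A)) < f y}
                · rw [indicator_of_mem hy]
                  have hp : (a, y) ∈ PS f v A := by
                    refine ⟨?_, ?_⟩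
                    · show v a * ‖a - y‖ₑ < ENNReal.ofReal (16 * A)
                      rw [hvs, ← ofReal_norm, ← ENNReal.ofReal_mul hs.le]
                      rw [ENNReal.ofReal_lt_ofReal_iff (by positivity)]
                      have h5 : ‖a - y‖ < 16 * A / s := hy.1
                      rw [lt_div_iff₀ hs] at h5
                      linarith
                    · show v a ^ 2 < ENNReal.ofReal (8192 * cc * A) * f y
                      have h5 : ENNReal.ofReal (s ^ 2 / (8192 * cc * A)) < f y := hy.2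
                      have h6 : v a ^ 2 = ENNReal.ofReal (8192 * cc * A) *
                          ENNReal.ofReal (s ^ 2 / (8192 * cc * A)) := by
                        rw [hvs, ← ENNReal.ofReal_mul (by positivity),
                          ← ENNReal.ofReal_pow hs.le]
                        congr 1
                        field_simp
                      rw [h6]
                      refine ENNReal.mul_lt_mul_right ?_ ENNReal.ofReal_ne_top h5
                      exact (ENNReal.ofReal_pos.mpr (by positivity)).ne'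
                  unfold WW
                  rw [indicator_of_mem hp]
                  refine le_of_eq ?_
                  ring
                · rw [indicator_of_notMem hy]
                  exact zero_le
    _ = 16 * ((∫⁻ y, f y ^ 2) * (cc * ENNReal.ofReal (16 / ρ))) * (∫⁻ a, v a ^ 2) +
        4 * ∫⁻ a, ∫⁻ y, f y * WW f v A (a, y) := by
        have hm : Measurable fun a => ∫⁻ y, f y * WW f v A (a, y) :=
          Measurable.lintegral_prod_right' (f := fun p : E3 × E3 => f p.2 * WW f v A p)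
            ((hf.comp measurable_snd).mul hW)
        rw [lintegral_add_right _ (hm.const_mul _), lintegral_const_mul _ (by fun_prop),
          lintegral_const_mul _ hm]
    _ ≤ _ := add_le_add le_rfl (mul_le_mul' le_rfl (swapb f v hf hv A hA))

theorem zero_case (f : E3 → ℝ≥0∞) (hf : Measurable f) (ρ : ℝ) (hρ : 0 < ρ)
    (hg : ∀ a : E3, ∫⁻ y in ball a ρ, f y = 0) (a : E3) :
    ∫⁻ y, f y * (‖a - y‖ₑ ^ 2)⁻¹ = 0 := by
  have h1 : (volume.withDensity f) (univ : Set E3) = 0 := by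
    refine measure_null_of_locally_null _ fun x _ => ⟨ball x ρ, ?_, ?_⟩
    · rw [nhdsWithin_univ]
      exact ball_mem_nhds x hρ
    · rw [withDensity_apply _ measurableSet_ball]
      exact hg x
  rw [withDensity_apply _ MeasurableSet.univ, Measure.restrict_univ, lintegral_eq_zero_iff hf] at h1
  rw [lintegral_eq_zero_iff (by fun_prop)]
  filter_upwards [h1] with y hy
  simp [hy]

theorem main : S_hed := by
  refine ⟨256 * cc + 41943040 * cc ^ 2, fun f v hf hv h A ρ hρ hg => ?_⟩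
  have hρ' : (0 : ℝ) < ρ := by exact_mod_cast hρ
  have hg' : ∀ (a : E3) (r : ℝ), 0 < r → r ≤ ρ →
      ∫⁻ y in ball a r, f y ≤ ENNReal.ofReal (A * r) := by
    intro a r hr hr2
    have h1 := hg a r.toNNReal (by
      rw [← NNReal.coe_le_coe]
      push_cast
      rw [Real.coe_toNNReal r hr.le]
      linarith)
    rw [Real.coe_toNNReal r hr.le] at h1
    refine h1.trans (le_of_eq ?_)
    rw [ENNReal.ofReal_mul (NNReal.coe_nonneg A), ENNReal.ofReal_coe_nnreal]
    rfl
  rcases eq_or_lt_of_le (show (0 : ℝ≥0) ≤ A from zero_le) with hA | hA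
  · have h0 : ∀ a : E3, ∫⁻ y in ball a (ρ : ℝ), f y = 0 := by
      intro a
      have := hg' a ρ hρ' le_rfl
      rw [← hA] at this
      simpa using this
    have h1 : ∫⁻ a, v a ^ 4 = 0 := by
      rw [lintegral_eq_zero_iff' (hv.pow_const 4)]
      filter_upwards [h] with a ha
      rw [zero_case f hf ρ hρ' h0 a] at ha
      have : v a = 0 := le_antisymm ha zero_le
      simp [this]
    rw [h1]
    exact zero_le
  have hA' : (0 : ℝ) < A := by exact_mod_cast hA
  set w := hv.mk v with hw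
  have hwm : Measurable w := hv.measurable_mk
  have hvw : v =ᵐ[volume] w := hv.ae_eq_mk
  have e4 : ∫⁻ a, v a ^ 4 = ∫⁻ a, w a ^ 4 :=
    lintegral_congr_ae (by filter_upwards [hvw] with a ha; rw [ha])
  have e2 : ∫⁻ a, v a ^ 2 = ∫⁻ a, w a ^ 2 :=
    lintegral_congr_ae (by filter_upwards [hvw] with a ha; rw [ha])
  have hw1 : ∀ᵐ a, w a ≤ ∫⁻ y, f y * (‖a - y‖ₑ ^ 2)⁻¹ := by
    filter_upwards [h, hvw] with a ha hb
    rw [← hb]
    exact ha
  rw [e4, e2]
  have hn : ∀ n : ℕ, ∫⁻ a, (min (w a) (n : ℝ≥0∞)) ^ 4 ≤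
      16 * ((∫⁻ y, f y ^ 2) * (cc * ENNReal.ofReal (16 / ρ))) * (∫⁻ a, w a ^ 2) +
      4 * (cc * ENNReal.ofReal (80 * (16 * A) * (8192 * cc * A)) * ∫⁻ y, f y ^ 2) := by
    intro n
    have h1 := core f (fun a => min (w a) (n : ℝ≥0∞)) hf (hwm.min measurable_const)
      (fun a => ((min_le_right _ _).trans_lt (ENNReal.natCast_lt_top n)).ne)
      (by
        filter_upwards [hw1] with a ha
        exact (min_le_left _ _).trans ha) A ρ hA' hρ' hg'
    refine h1.trans (add_le_add (mul_le_mul' le_rfl (lintegral_mono fun a => ?_)) le_rfl)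
    exact pow_le_pow_left' (min_le_left _ _) 2
  have hlim : Filter.Tendsto (fun n : ℕ => ∫⁻ a, (min (w a) (n : ℝ≥0∞)) ^ 4) Filter.atTop
      (nhds (∫⁻ a, w a ^ 4)) := by
    refine lintegral_tendsto_of_tendsto_of_monotone
      (fun n => ((hwm.min measurable_const).pow_const 4).aemeasurable)
      (Filter.Eventually.of_forall fun a => ?_) (Filter.Eventually.of_forall fun a => ?_)
    · intro m n hmn
      refine pow_le_pow_left' (min_le_min le_rfl ?_) 4
      exact_mod_cast hmn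
    · have h1 : Filter.Tendsto (fun n : ℕ => min (w a) (n : ℝ≥0∞)) Filter.atTop
          (nhds (min (w a) ⊤)) :=
        tendsto_const_nhds.min ENNReal.tendsto_nat_nhds_top
      rw [min_top_right] at h1
      exact ENNReal.Tendsto.pow h1
  refine (le_of_tendsto' hlim hn).trans ?_
  rw [add_comm]
  have q1 : ENNReal.ofReal (80 * (16 * A) * (8192 * cc * A)) = 10485760 * cc * (A : ℝ≥0∞) ^ 2 := by
    have : (80 * (16 * A) * (8192 * cc * A) : ℝ) = ((10485760 * cc * A ^ 2 : ℝ≥0) : ℝ) := by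
      push_cast
      ring
    rw [this, ENNReal.ofReal_coe_nnreal]
    push_cast
    ring
  have q2 : ENNReal.ofReal (16 / ρ) = 16 * (ρ : ℝ≥0∞)⁻¹ := by
    rw [ENNReal.ofReal_div_of_pos hρ', ENNReal.ofReal_coe_nnreal, div_eq_mul_inv]
    norm_num
  rw [q1, q2]
  refine add_le_add ?_ ?_
  · calc 4 * ((cc : ℝ≥0∞) * (10485760 * cc * (A : ℝ≥0∞) ^ 2) * ∫⁻ y, f y ^ 2)
        = (41943040 * (cc : ℝ≥0∞) ^ 2) * ((A : ℝ≥0∞) ^ 2 * ∫⁻ y, f y ^ 2) := by ring
      _ ≤ _ := by
        refine mul_le_mul' ?_ le_rfl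
        push_cast
        exact le_add_self
  · calc 16 * ((∫⁻ y, f y ^ 2) * ((cc : ℝ≥0∞) * (16 * (ρ : ℝ≥0∞)⁻¹))) * ∫⁻ a, w a ^ 2
        = (256 * (cc : ℝ≥0∞)) * (ρ : ℝ≥0∞)⁻¹ * ((∫⁻ y, f y ^ 2) * ∫⁻ a, w a ^ 2) := by ring
      _ ≤ _ := by
        refine mul_le_mul' (mul_le_mul' ?_ le_rfl) le_rfl
        push_cast
        exact le_self_add

end Pool.Agent.U981.EV.HED
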